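import Mathlib
import Pool.Agent.Helper24.HK.Cfg
import Pool.Agent.Helper66.HK.NoPair
import Pool.Agent.Helper76.HK.Cfg
import Pool.Agent.Helper45.HK.Padic

/-!
# Project HK: assembly of the dynamics
-/

set_option autoImplicit false

namespace Pool.Agent.Helper28.HK

open MvPolynomial Pool.Agent.Helper64.HK Pool.Agent.Helper24.HK
open Pool.Agent.Helper28.HN (I aff)

/-- ORB. -/
theorem nopair {k m : ℕ} (hk : 2 ≤ k) (hm : 2 ≤ m) (a : Fin (k + 1) → Fin (m + 1)) :
    ∃ Δ : MvPolynomial (Ix a) ℚ, Δ ≠ 0 ∧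
    ∀ (K : Type) [Field K] [NumberField K] (c : Ix a → K), aeval c Δ ≠ 0 →
      ∃ (L : Type) (_ : Field L) (_ : NumberField L) (_ : Algebra K L),
        NoPair (fun e => algebraMap K L (c e)) := by
  obtain ⟨s, Δ, hΔ, H⟩ := Pool.Agent.Helper76.HK.exists_cfg hk hm a
  refine ⟨Δ, hΔ, fun K _ _ c hc => ?_⟩
  obtain ⟨L, _, _, _, xL, hE, hP, hJ⟩ := H K c hc
  obtain ⟨p, hpp, φ, c', x', K', hp, hfin, hφ, hx', hc', hcfg⟩ :=
    Pool.Agent.Helper45.HK.exists_padic s (fun e => algebraMap K L (c e)) xL hE hP hJ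
  have hcz : CharZero K' := charZero_of_injective_algebraMap (algebraMap ℚ K').injective
  have hnf : NumberField K' := { to_charZero := hcz, to_finiteDimensional := hfin }
  let ρ : K →+* K' := (φ.comp (algebraMap K L)).codRestrict K'.toSubfield fun x => hφ _
  have hnp : NoPair (K := K'.toSubfield) (fun e => ρ (c e)) :=
    Pool.Agent.Helper66.HK.nopair_p hp hm c' s x' hcfg K'.toSubfield (fun e => ρ (c e))
      (fun e => (hc' e).symm) hx'
  exact ⟨K', inferInstance, hnf, ρ.toAlgebra, hnp⟩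

end Pool.Agent.Helper28.HK
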